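import Pool.Agent.R284.CLP6

set_option autoImplicit false

/-!
# MP_2a866c_an: a unital positive isometry `H_2 → H_6` which is not a generalized CLP isometry

The definitions are in `Pool.Agent.R284.CLP`. The map is
`Φ(X) = [[A(X), B(X)], [B(X)*, C(X)]]` on `ℂ² ⊗ ℂ² ⊕ ℂ²` with
`A(X) = (I ⊗ X + (tr(X) I - X) ⊗ I) / 2`, `B(X)` the vector
`(X₁₁ - X₂₂, X₂₁, X₂₁, 0) / 3` in the first column and `0` in the second one, and
`C(X) = [[tr X / 2, 5 X₂₁ / 6], [5 X₁₂ / 6, tr X / 2]]`.
For a unit vector `g` the kernel of `Φ(g g*)` is spanned by `g ⊗ g^⊥` and these vectors span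
`ℂ² ⊗ ℂ²`. In a generalized CLP representation this forces the compression of `f` to vanish on
`ℂ² ⊗ ℂ²`, so that `A` and `B` come from the decomposable part, whose corner in the `C` block is
then too large: an average over `g = (1, z)`, `z = 1, i, -1, -i` gives a contradiction.
-/

namespace Pool.Agent.Results.MP_2a866c_an.NotGeneralizedCLP

open Pool.Agent.R284.CLP

/-- There is a unital positive linear isometry `H_2 → H_6` that is not a generalized CLP
isometry. -/
theorem result : ∃ Φ : Herm 2 →ₗ[ℝ] Herm 6,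
    Unital Φ ∧ Positive Φ ∧ Isometric Φ ∧ ¬ IsGenCLP Φ :=
  ⟨phi, phi_unital, phi_positive, phi_isometric, phi_not_genCLP⟩

end Pool.Agent.Results.MP_2a866c_an.NotGeneralizedCLP
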